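import Pool.Agent.Results.MP_28b024_mp.MobilityEdgeScale
import Pool.Agent.N559.FG.Fin
import Pool.Agent.TH794.HK.FinN
import Pool.Agent.W193.BK.ES
import Pool.Agent.W240.BK.Var
import Pool.Agent.W540.BK.Fac
import Pool.Agent.W240.BK.Fluct
import Pool.Agent.W918.BK.Osc
import Pool.Agent.W240.BK.Two
import Pool.Agent.W465.BK.QB
import Pool.Agent.W475.BK.Low
import Pool.Agent.W975.BK.Sup
import Pool.Agent.W790.BK.ADM
import Pool.Agent.W475.BK.Inv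
import Pool.Agent.W261.BK.Third

/-!
# Weak disorder, `d ≥ 3`: the Fermi golden rule for one realisation of the disorder

`H = -Δ + λ V_ω` on `ℤ^d`, `d ≥ 3`, `ω_x` iid with any law on `[-b, b]` of mean `M` and variance
`V ≥ v > 0` (no regularity is needed). Let `ψ` be a unit vector supported in `|x| ≤ λ^{-5}` with
`‖(-Δ - e) ψ‖ ≤ λ^{41/20}`, `κ ≤ e ≤ 4 d - κ`: a wave packet of the free operator with energy `e`
in the interior of the band. Write `g = g₀(2d - e)`,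
`g₀(E) = ∫_{[0,1]^d} (∑ 2 cos 2πk_i - E - i0)⁻¹ dk`; here `Im g` is `π` times the free density of
states at `e`, and it is at least `c(d, κ) > 0`. For `λ ≤ λ₀(d, κ, b, v)`, with probability at
least `1 - exp(-λ^{-1/100})`, for all translates `ψ_a = ψ(· - a)`, `|a| ≤ exp(λ^{-1/100})`, the
spectral measure `m` of `ψ_a` satisfies:

* (exponential decay) for all times `|s| ≤ λ^{-211/100}` (the kinetic time scale is `λ^{-2}`)
  `|⟨ψ_a, e^{-isH} ψ_a⟩ - e^{-is(e + λ M + λ² V Re g)} e^{-λ² V Im g |s|}| ≤ λ^{1/250}`, where the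
  first term is written as `∫ e^{-isx} dm(x)`;
* (line shape) `m` is within `λ^{1/250}` of the Cauchy law with centre `e + λ M + λ² V Re g` and
  width `λ² V Im g`, uniformly over all intervals.
-/

set_option autoImplicit false

open scoped BigOperators ENNReal Topology
open MeasureTheory Filter

namespace Pool.Agent.Results.MP_28b024_mp.FermiGoldenRule

open Pool.Agent.Results.MP_28b024_mp.MobilityEdgeScale

/-- `∫_0^1 exp(-is · 2 cos 2πx) dx` -/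
noncomputable def p0 (s : ℝ) : ℂ :=
  ∫ x in (0 : ℝ)..1, Complex.exp (Complex.I * ((-s * (2 * Real.cos (2 * Real.pi * x)) : ℝ) : ℂ))

/-- the boundary value `∫_{[0,1]^d} (∑ 2 cos 2πk_i - E - i0)⁻¹ dk` -/
noncomputable def g0 (d : ℕ) (E : ℝ) : ℂ :=
  Complex.I * ∫ s in Set.Ioi (0 : ℝ), p0 s ^ d * Complex.exp (Complex.I * (E : ℂ) * s)

theorem g0_eq (d : ℕ) (E : ℝ) : g0 d E = Pool.Agent.TH794.QD.GF (Pool.Agent.TH794.QD.F0 d) E := rfl

theorem H_eq' {d : ℕ} (lam : ℝ) (ω : (Fin d → ℤ) → ℝ) (u : (Fin d → ℤ) → ℂ) (x : Fin d → ℤ) :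
    H lam ω u x = -Pool.Agent.W788.LD.Spec.S u x + ((2 * d + lam * ω x : ℝ) : ℂ) * u x := by
  unfold H Pool.Agent.W788.LD.Spec.S
  have h2 : ∑ i : Fin d, ((u (x + Pi.single i 1) - u x) + (u (x - Pi.single i 1) - u x)) =
      ∑ i : Fin d, (u (x + Pi.single i 1) + u (x - Pi.single i 1)) - 2 * (d : ℂ) * u x := by
    rw [Finset.sum_add_distrib, Finset.sum_sub_distrib, Finset.sum_sub_distrib,
      Finset.sum_add_distrib]
    simp
    ring
  rw [h2]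
  push_cast
  ring

/-- **Theorem.** -/
theorem result (d : ℕ) (hd : 3 ≤ d) (κ : ℝ) (hκ : 0 < κ) (hκ1 : κ ≤ 1) :
    (∃ c : ℝ, 0 < c ∧ ∀ e : ℝ, κ ≤ e → e ≤ 4 * d - κ → c ≤ (g0 d (2 * d - e)).im) ∧
    ∀ b v : ℝ, 0 < b → 0 < v → ∃ lam0 : ℝ, 0 < lam0 ∧
      ∀ (μ : Measure ℝ) [IsProbabilityMeasure μ], (∀ᵐ s ∂μ, |s| ≤ b) →
      ∀ M V : ℝ, ∫ s, s ∂μ = M → ∫ s, (s - M) ^ 2 ∂μ = V → v ≤ V →
      ∀ lam : ℝ, 0 < lam → lam ≤ lam0 →
      ∀ e : ℝ, κ ≤ e → e ≤ 4 * d - κ →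
      ∀ ψ : (Fin d → ℤ) → ℂ, (∀ x, lam ^ (-5 : ℝ) < ‖x‖ → ψ x = 0) → ∑' x, ‖ψ x‖ ^ 2 = 1 →
        ∑' x, ‖H 0 (fun _ => 0) ψ x - (e : ℂ) * ψ x‖ ^ 2 ≤ (lam ^ (41 / 20 : ℝ)) ^ 2 →
      ∃ G : Set ((Fin d → ℤ) → ℝ), MeasurableSet G ∧
        1 - Real.exp (-lam ^ (-(1 / 100) : ℝ)) ≤
          (Measure.infinitePi fun _ : Fin d → ℤ => μ).real G ∧
        ∀ ω ∈ G, ∀ a : Fin d → ℤ, ‖a‖ ≤ Real.exp (lam ^ (-(1 / 100) : ℝ)) →
          ∀ m : Measure ℝ, IsSpectralMeasure (H lam ω) (fun x => ψ (x - a)) m →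
            (∀ s : ℝ, |s| ≤ lam ^ (-(211 / 100) : ℝ) →
              ‖(∫ x : ℝ, Complex.exp (-(Complex.I * s * x)) ∂m) -
                Complex.exp (-(Complex.I * s *
                  ((e + lam * M + lam ^ 2 * V * (g0 d (2 * d - e)).re : ℝ) : ℂ)) -
                  ((lam ^ 2 * V * (g0 d (2 * d - e)).im : ℝ) : ℂ) * |s|)‖ ≤
                lam ^ (1 / 250 : ℝ)) ∧
            ∀ α β : ℝ, α ≤ β → |m.real (Set.Icc
                (e + lam * M + lam ^ 2 * V * ((g0 d (2 * d - e)).re +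
                  α * (g0 d (2 * d - e)).im))
                (e + lam * M + lam ^ 2 * V * ((g0 d (2 * d - e)).re +
                  β * (g0 d (2 * d - e)).im))) -
              (Real.arctan β - Real.arctan α) / Real.pi| ≤ lam ^ (1 / 250 : ℝ) := by
  obtain ⟨⟨m, hm, hl⟩, -⟩ := Pool.Agent.TH794.HK.engK3 Pool.Agent.W193.BK.ES.es
    (Pool.Agent.W261.BK.third Pool.Agent.W540.BK.fac)
    (Pool.Agent.W240.BK.fluct (Pool.Agent.W240.BK.var Pool.Agent.W193.BK.ES.es))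
    Pool.Agent.W475.BK.inv Pool.Agent.W975.BK.sup
    (Pool.Agent.W465.BK.qb (Pool.Agent.W240.BK.two Pool.Agent.W918.BK.Osc.osc))
    Pool.Agent.W475.BK.low Pool.Agent.W790.BK.ADM.adm Pool.Agent.W540.BK.fac
    Pool.Agent.W918.BK.Osc.osc d hd κ hκ hκ1
  have hlow : ∀ E : ℝ, |E| ≤ 2 * d - κ → m ≤ (Pool.Agent.TH794.QD.GF
      (Pool.Agent.TH794.QD.F0 d) (E : ℂ)).im := by
    intro E hE
    have h1 := hl E hE
    linarith [h1.1, h1.2]
  refine ⟨⟨m, hm, fun e he1 he2 => ?_⟩, fun b v hb hv => ?_⟩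
  · rw [g0_eq]
    apply hlow
    rw [abs_le]
    constructor <;> linarith
  obtain ⟨lam0, hlam0, h⟩ := Pool.Agent.N559.FG.fin Pool.Agent.W193.BK.ES.es
    (Pool.Agent.W261.BK.third Pool.Agent.W540.BK.fac)
    (Pool.Agent.W240.BK.fluct (Pool.Agent.W240.BK.var Pool.Agent.W193.BK.ES.es))
    Pool.Agent.W475.BK.inv Pool.Agent.W918.BK.Osc.osc Pool.Agent.W975.BK.sup
    (Pool.Agent.W465.BK.qb (Pool.Agent.W240.BK.two Pool.Agent.W918.BK.Osc.osc))
    Pool.Agent.W475.BK.low Pool.Agent.W790.BK.ADM.adm d hd κ (m / 2) (by linarith)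
    (fun E hE => by linarith [hlow E hE]) b v hb hv
  refine ⟨lam0, hlam0, fun μ hμ hμb M V hM hV hvV lam hlam hlam1 e he1 he2 ψ hψs hψ1 hψ2 => ?_⟩
  have hee : |2 * (d : ℝ) - e| ≤ 2 * d - κ := by
    rw [abs_le]
    constructor <;> linarith
  have hψ2' : ∑' x, ‖Pool.Agent.W788.LD.Spec.S ψ x - ((2 * d - e : ℝ) : ℂ) * ψ x‖ ^ 2 ≤
      lam ^ (41 / 10 : ℝ) := by
    have e1 : (lam ^ (41 / 20 : ℝ)) ^ 2 = lam ^ (41 / 10 : ℝ) := by
      rw [← Real.rpow_natCast, ← Real.rpow_mul hlam.le]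
      norm_num
    rw [e1] at hψ2
    refine le_trans (le_of_eq (tsum_congr fun x => ?_)) hψ2
    have e2 : H 0 (fun _ => 0) ψ x - (e : ℂ) * ψ x =
        -(Pool.Agent.W788.LD.Spec.S ψ x - ((2 * d - e : ℝ) : ℂ) * ψ x) := by
      rw [H_eq']
      push_cast
      ring
    rw [e2, norm_neg]
  obtain ⟨G, hG, hP, hL⟩ := h μ hμ hμb M V hM hV hvV lam hlam hlam1 e hee ψ hψs hψ1 hψ2'
  refine ⟨G, hG, hP, fun ω hω a ha m hm => ?_⟩
  have hr : Pool.Agent.TH794.FG.Res2 d (fun x => 2 * d + lam * ω x) (fun x => ψ (x - a)) m := by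
    intro z hz
    obtain ⟨u, hu, heq, hint⟩ := hm.2 z hz
    refine ⟨u, hu, fun x => ?_, hint⟩
    have := heq x
    rw [H_eq'] at this
    exact this
  obtain ⟨h1, h2⟩ := hL ω hω a ha m hm.1 hr
  exact ⟨h2, h1⟩

end Pool.Agent.Results.MP_28b024_mp.FermiGoldenRule
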