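import Pool.Agent.Results.MP_28b024_mp.MobilityEdgeScale
import Pool.Agent.TH794.LL2.Fin2
import Pool.Agent.W193.BK.ES
import Pool.Agent.W240.BK.Var
import Pool.Agent.W540.BK.Fac
import Pool.Agent.W240.BK.Fluct
import Pool.Agent.W918.BK.Osc
import Pool.Agent.W240.BK.Two
import Pool.Agent.W465.BK.QB
import Pool.Agent.W475.BK.Low
import Pool.Agent.W975.BK.Sup
import Pool.Agent.W790.BK.ADM
import Pool.Agent.W475.BK.Inv
import Pool.Agent.W261.BK.Third

/-!
# Weak disorder in dimension at least three: the local density of states beyond the kinetic scale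

`H = -Δ + λ V_ω` on `ℤ^d`, `d ≥ 3`, `ω_x` iid with any law on `[-b, b]` (no regularity is needed).
There is `λ₀ > 0`, depending only on `d` and `b`, such that for `0 < λ ≤ λ₀`, with probability at
least `1 - exp(-λ^{-1/100})`, the spectral measure `m` of every `δ_a`, `|a| ≤ exp(λ^{-1/100})`,
satisfies `|m [E - s, E + s] - m₀ [E - s, E + s]| ≤ λ^{1/200} s` at all energies `E` and for all
`s ≥ λ^{21/10}`, where `m₀` is the spectral measure of `δ_a` for `-Δ`. The natural kinetic scale is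
`λ²`; the scale `λ^{21/10}` is much smaller. Band edges, van Hove singularities and energies outside
the band are included.
-/

set_option autoImplicit false

open scoped BigOperators ENNReal
open MeasureTheory

namespace Pool.Agent.Results.MP_28b024_mp.LocalLaw

open Pool.Agent.Results.MP_28b024_mp.MobilityEdgeScale

theorem key {d : ℕ} (lam : ℝ) (ω : (Fin d → ℤ) → ℝ) (u : (Fin d → ℤ) → ℂ) (x : Fin d → ℤ) :
    -Pool.Agent.W788.LD.Spec.S u x + ((2 * d + lam * ω x : ℝ) : ℂ) * u x = H lam ω u x := by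
  unfold H Pool.Agent.W788.LD.Spec.S
  have h2 : ∑ i : Fin d, ((u (x + Pi.single i 1) - u x) + (u (x - Pi.single i 1) - u x)) =
      ∑ i : Fin d, (u (x + Pi.single i 1) + u (x - Pi.single i 1)) - 2 * (d : ℂ) * u x := by
    rw [Finset.sum_add_distrib, Finset.sum_sub_distrib, Finset.sum_sub_distrib,
      Finset.sum_add_distrib]
    simp
    ring
  rw [h2]
  push_cast
  ring

theorem res_of {d : ℕ} (lam : ℝ) (ω : (Fin d → ℤ) → ℝ) (V : (Fin d → ℤ) → ℝ)
    (hV : ∀ x, V x = 2 * d + lam * ω x) (a : Fin d → ℤ) (m : Measure ℝ)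
    (hm : IsSpectralMeasure (H lam ω) (Pi.single a 1) m) :
    Pool.Agent.TH794.LL2.Res d V a m := by
  intro z hz
  obtain ⟨u, hu, heq, hint⟩ := hm.2 z hz
  refine ⟨u, hu, fun x => ?_, hint⟩
  rw [hV x, key lam ω u x]
  exact heq x

/-- **The local law.** `H 0 ω` is the free operator `-Δ`. -/
theorem result (d : ℕ) (hd : 3 ≤ d) (b : ℝ) (hb : 0 < b) :
    ∃ lam0 : ℝ, 0 < lam0 ∧
      ∀ (μ : Measure ℝ) [IsProbabilityMeasure μ], (∀ᵐ s ∂μ, |s| ≤ b) →
      ∀ lam : ℝ, 0 < lam → lam ≤ lam0 →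
      ∃ G : Set ((Fin d → ℤ) → ℝ), MeasurableSet G ∧
        1 - Real.exp (-lam ^ (-(1 / 100) : ℝ)) ≤
          (Measure.infinitePi fun _ : Fin d → ℤ => μ).real G ∧
        ∀ ω ∈ G, ∀ a : Fin d → ℤ, ‖a‖ ≤ Real.exp (lam ^ (-(1 / 100) : ℝ)) →
          ∀ m m0 : Measure ℝ, IsSpectralMeasure (H lam ω) (Pi.single a 1) m →
            IsSpectralMeasure (H 0 (fun _ => 0)) (Pi.single a 1) m0 →
            ∀ E s : ℝ, lam ^ (21 / 10 : ℝ) ≤ s →
              |m.real (Set.Icc (E - s) (E + s)) - m0.real (Set.Icc (E - s) (E + s))| ≤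
                lam ^ (1 / 200 : ℝ) * s := by
  obtain ⟨lam0, hlam0, h⟩ := Pool.Agent.TH794.LL2.fin2 Pool.Agent.W193.BK.ES.es
    (Pool.Agent.W261.BK.third Pool.Agent.W540.BK.fac)
    (Pool.Agent.W240.BK.fluct (Pool.Agent.W240.BK.var Pool.Agent.W193.BK.ES.es))
    Pool.Agent.W475.BK.inv Pool.Agent.W918.BK.Osc.osc Pool.Agent.W975.BK.sup
    (Pool.Agent.W465.BK.qb (Pool.Agent.W240.BK.two Pool.Agent.W918.BK.Osc.osc))
    Pool.Agent.W475.BK.low Pool.Agent.W790.BK.ADM.adm d hd b hb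
  refine ⟨lam0, hlam0, fun μ hμ hμb lam hlam hlam1 => ?_⟩
  obtain ⟨G, hG, hP, hL⟩ := h μ hμ hμb lam hlam hlam1
  refine ⟨G, hG, hP, fun ω hω a ha m m0 hm hm0 E s hs => ?_⟩
  have i1 : IsFiniteMeasure m := hm.1
  have i0 : IsFiniteMeasure m0 := hm0.1
  exact hL ω hω a ha m m0 hm.1 hm0.1 (res_of lam ω _ (fun x => rfl) a m hm)
    (res_of 0 (fun _ => 0) _ (fun x => by ring) a m0 hm0) E s hs

end Pool.Agent.Results.MP_28b024_mp.LocalLaw
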